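import Pool.Agent.H547U5.Ne

/-!
# `NEXP` against `P/poly` is decided by circuits with `log n - c` NOT gates

By Markov and Fischer, every function of `n` variables has circuits of nearly the same size with at
most `⌈log₂ (n + 1)⌉` NOT gates. For monotone languages any constant number of these NOT gates can
be saved, still in polynomial size; so `NEXP ⊆ P/poly` if and only if every monotone language in
`NEXP` has polynomial-size circuits with at most `⌈log₂ (n + 1)⌉ - c` NOT gates, for any fixed `c`.
-/

set_option autoImplicit false

namespace Pool.Agent.Results.MP_70d3b5_lc.FewerNotGates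

open Pool.Agent.NPC Pool.Agent.H547R2.Mag Pool.Agent.H547U5

theorem result (c : ℕ) : (∀ L : Set (List Bool), InNEXP L → PPoly L) ↔
    ∀ L : Set (List Bool), InNEXP L → MonoLang L →
      PPolyNot (fun n => Nat.clog 2 (n + 1) - c) L :=
  nexp_iff c

end Pool.Agent.Results.MP_70d3b5_lc.FewerNotGates
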